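import Mathlib

/-!
# Finitely generated fields of characteristic zero over rational function fields (helper for SP)
-/

set_option autoImplicit false

namespace Pool.Agent.N558.FG

open MvPolynomial

lemma mem_adjoin {R M : Type} [CommRing R] [Field M] [CharZero M] [Algebra R M] {s : Set R}
    (hs : Algebra.adjoin ℤ s = ⊤) (r : R) :
    algebraMap R M r ∈ Algebra.adjoin ℚ (algebraMap R M '' s) := by
  have hr : r ∈ Algebra.adjoin ℤ s := by rw [hs]; trivial
  induction hr using Algebra.adjoin_induction with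
  | mem x hx => exact Algebra.subset_adjoin ⟨x, hx, rfl⟩
  | algebraMap n =>
    have h1 : algebraMap R M (algebraMap ℤ R n) = algebraMap ℚ M (n : ℚ) := by simp
    rw [h1]
    exact Subalgebra.algebraMap_mem _ _
  | add x y _ _ h1 h2 => rw [map_add]; exact add_mem h1 h2
  | mul x y _ _ h1 h2 => rw [map_mul]; exact mul_mem h1 h2

/-- The field `M` is algebraic over a rational function field in finitely many variables. -/
theorem setup {R M Ω : Type} [CommRing R] [IsDomain R] [CharZero R] [Field M] [Algebra R M]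
    [IsFractionRing R M] [Field Ω] (j : M →+* Ω) (s : Finset R)
    (hs : Algebra.adjoin ℤ (s : Set R) = ⊤) :
    ∃ (ι : Type) (_ : Finite ι) (Q : Type) (_ : Field Q) (_ : CharZero Q)
      (_ : Algebra (MvPolynomial ι ℚ) Q)
      (_ : IsFractionRing (MvPolynomial ι ℚ) Q) (_ : Algebra Q Ω),
      (∀ q : Q, algebraMap Q Ω q ∈ j.range) ∧ ∀ m : M, IsAlgebraic Q (j m) := by
  classical
  have hcz : CharZero M := charZero_of_injective_algebraMap (IsFractionRing.injective R M)
  have halg : Algebra.IsAlgebraic (Algebra.adjoin ℚ (algebraMap R M '' (s : Set R))) M := by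
    constructor
    intro m
    obtain ⟨a, b, _, rfl⟩ := IsFractionRing.div_surjective (A := R) m
    rw [div_eq_mul_inv]
    have h1 : ∀ r : R, IsAlgebraic (Algebra.adjoin ℚ (algebraMap R M '' (s : Set R)))
        (algebraMap R M r) := fun r =>
      isAlgebraic_algebraMap (A := M)
        (⟨algebraMap R M r, mem_adjoin hs r⟩ : Algebra.adjoin ℚ (algebraMap R M '' (s : Set R)))
    exact (h1 a).mul (h1 b).inv
  obtain ⟨t, hts, ht⟩ := exists_isTranscendenceBasis_subset (R := ℚ) (A := M)
    (algebraMap R M '' (s : Set R))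
  have hfin : Finite t := ((s.finite_toSet.image _).subset hts)
  have hinj : Function.Injective (aeval (R := ℚ) (fun x : t => (x : M)) : MvPolynomial t ℚ →ₐ[ℚ] M) :=
    ht.1
  let i0 : FractionRing (MvPolynomial t ℚ) →+* M :=
    IsFractionRing.lift (g := (aeval (R := ℚ) (fun x : t => (x : M)) :
      MvPolynomial t ℚ →ₐ[ℚ] M).toRingHom) hinj
  let _ : Algebra (FractionRing (MvPolynomial t ℚ)) Ω := (j.comp i0).toAlgebra
  have hQ : CharZero (FractionRing (MvPolynomial t ℚ)) :=
    charZero_of_injective_algebraMap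
      (IsFractionRing.injective (MvPolynomial t ℚ) (FractionRing (MvPolynomial t ℚ)))
  refine ⟨t, hfin, FractionRing (MvPolynomial t ℚ), inferInstance, hQ, inferInstance, inferInstance,
    inferInstance, fun q => ⟨i0 q, rfl⟩, fun m => ?_⟩
  have h1 := ht.isAlgebraic
  have h2 : IsAlgebraic (Algebra.adjoin ℚ (Set.range ((↑) : t → M))) m := h1.isAlgebraic m
  have h3 : Function.Injective ((algebraMap (MvPolynomial t ℚ) (FractionRing (MvPolynomial t ℚ))).comp
      ht.1.aevalEquiv.symm.toAlgHom.toRingHom) := by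
    refine (IsFractionRing.injective (MvPolynomial t ℚ) (FractionRing (MvPolynomial t ℚ))).comp ?_
    exact ht.1.aevalEquiv.symm.injective
  refine IsAlgebraic.ringHom_of_comp_eq _ j h2 h3 ?_
  ext y
  show j (i0 (algebraMap (MvPolynomial t ℚ) (FractionRing (MvPolynomial t ℚ))
    (ht.1.aevalEquiv.symm y))) = j (y : M)
  congr 1
  have h4 : i0 (algebraMap (MvPolynomial t ℚ) (FractionRing (MvPolynomial t ℚ))
      (ht.1.aevalEquiv.symm y)) = aeval (R := ℚ) (fun x : t => (x : M)) (ht.1.aevalEquiv.symm y) :=
    IsFractionRing.lift_algebraMap hinj _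
  rw [h4]
  have h5 := ht.1.algebraMap_aevalEquiv (ht.1.aevalEquiv.symm y)
  rw [AlgEquiv.apply_symm_apply] at h5
  exact h5.symm

end Pool.Agent.N558.FG
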