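import Pool.Agent.N754.FG.Stm
import Pool.Agent.H298R2.Kuyk5
import Pool.Agent.H391R2.T4.Abl
import Pool.Agent.N558.FG.SPa

/-!
# Specialisation of a finitely generated domain to a number field, injective on units
-/

set_option autoImplicit false

namespace Pool.Agent.N558.FG

open Pool.Agent.N754.FG Pool.Agent.H298R2.Kuyk

lemma mem_adjoinZ {R M : Type} [CommRing R] [Field M] [Algebra R M] {s : Set R}
    (hs : Algebra.adjoin ℤ s = ⊤) (r : R) :
    algebraMap R M r ∈ Algebra.adjoin ℤ (algebraMap R M '' s) := by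
  have hr : r ∈ Algebra.adjoin ℤ s := by rw [hs]; trivial
  induction hr using Algebra.adjoin_induction with
  | mem x hx => exact Algebra.subset_adjoin ⟨x, hx, rfl⟩
  | algebraMap n =>
    have h1 : algebraMap R M (algebraMap ℤ R n) = algebraMap ℤ M n := by simp
    rw [h1]
    exact Subalgebra.algebraMap_mem _ _
  | add x y _ _ h1 h2 => rw [map_add]; exact add_mem h1 h2
  | mul x y _ _ h1 h2 => rw [map_mul]; exact mul_mem h1 h2

/-- A finitely generated group of units, a group of elements which are squares in it and on which a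
homomorphism to a field of characteristic zero is trivial. -/
lemma trivial_of_squares {M : Type} [Field M] (Γ N : Subgroup Mˣ) (hΓ : Γ.FG) (hN : N ≤ Γ)
    (hsq : ∀ u ∈ N, ∃ v ∈ N, v ^ 2 = u)
    (hp : ∀ w ∈ N, ∀ p : ℕ, 0 < p → ∑ i ∈ Finset.range p, (w : M) ^ i ≠ 0) :
    ∀ u ∈ N, u = 1 := by
  set Γ' : Submodule ℤ (Additive Mˣ) := (Subgroup.toAddSubgroup Γ).toIntSubmodule with hΓ'
  set N' : Submodule ℤ (Additive Mˣ) := (Subgroup.toAddSubgroup N).toIntSubmodule with hN'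
  have h1 : Γ'.FG := by
    rw [Submodule.fg_iff_addSubgroup_fg]
    exact (Subgroup.fg_iff_add_fg Γ).1 hΓ
  have h2 : N'.FG := by
    have h3 := isNoetherian_of_fg_of_noetherian Γ' h1
    exact (isNoetherian_submodule.1 h3) N' hN
  have h3 : N' ≤ (Ideal.span {(2 : ℤ)}) • N' := by
    intro n hn
    obtain ⟨v, hv, hv2⟩ := hsq (Additive.toMul n) hn
    have h4 : n = (2 : ℤ) • (Additive.ofMul v) := by
      rw [← ofMul_zpow]
      apply Additive.toMul.injective
      rw [toMul_ofMul, ← hv2]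
      norm_cast
    rw [h4]
    exact Submodule.smul_mem_smul (Ideal.mem_span_singleton_self 2) hv
  obtain ⟨r, hr, hr2⟩ := Submodule.exists_sub_one_mem_and_smul_eq_zero_of_fg_of_le_smul _ N' h2 h3
  have hr0 : r ≠ 0 := by
    rintro rfl
    rw [Ideal.mem_span_singleton] at hr
    omega
  intro u hu
  by_contra hu1
  have h4 : u ^ r = 1 := by
    have h5 := hr2 (Additive.ofMul u) hu
    rw [← ofMul_zpow] at h5
    exact Additive.ofMul.injective h5
  have h5 : u ^ r.natAbs = 1 := by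
    rcases Int.natAbs_eq r with h6 | h6
    · rw [h6, zpow_natCast] at h4
      exact h4
    · rw [h6, zpow_neg, zpow_natCast, inv_eq_one] at h4
      exact h4
  have h6 : 0 < orderOf u := by
    rw [orderOf_pos_iff, isOfFinOrder_iff_pow_eq_one]
    exact ⟨r.natAbs, Int.natAbs_pos.2 hr0, h5⟩
  have h7 : orderOf u ≠ 1 := by
    rw [Ne, orderOf_eq_one_iff]
    exact hu1
  have hpr := Nat.minFac_prime h7
  set p := (orderOf u).minFac with hpdef
  obtain ⟨k, hk⟩ := Nat.minFac_dvd (orderOf u)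
  rw [← hpdef] at hk
  have hk0 : 0 < k := by
    rcases Nat.eq_zero_or_pos k with h | h
    · rw [h] at hk; omega
    · exact h
  have hklt : k < orderOf u := by
    rw [hk]
    have := hpr.two_le
    nlinarith
  have hw1 : u ^ k ≠ 1 := pow_ne_one_of_lt_orderOf hk0.ne' hklt
  have hwp : (u ^ k) ^ p = 1 := by
    rw [← pow_mul, mul_comm k p, ← hk, pow_orderOf_eq_one]
  refine hp (u ^ k) (N.pow_mem hu k) p hpr.pos ?_
  have h8 := geom_sum_mul ((u ^ k : Mˣ) : M) p
  rw [← Units.val_pow_eq_pow_val, hwp, Units.val_one, sub_self] at h8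
  refine (mul_eq_zero.1 h8).resolve_right ?_
  rw [sub_eq_zero]
  intro h9
  exact hw1 (Units.ext h9)

theorem core (h3 : RQ3) {R M Ω : Type} [CommRing R] [IsDomain R] [CharZero R]
    [hft : Algebra.FiniteType ℤ R] [Field M] [Algebra R M] [IsFractionRing R M] [Field Ω]
    [IsAlgClosed Ω] (j : M →+* Ω) (h : R) (hh : h ≠ 0) :
    ∃ (F : Type) (_ : Field F) (_ : NumberField F) (φ : R →+* F), φ h ≠ 0 ∧
      ∀ u : Rˣ, φ u = 1 → u = 1 := by
  classical
  have hj : Function.Injective j := j.injective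
  have hczM : CharZero M := charZero_of_injective_algebraMap (IsFractionRing.injective R M)
  obtain ⟨s, hs⟩ := hft.out
  set sM : Set M := algebraMap R M '' (s : Set R) with hsM
  have hsMf : sM.Finite := s.finite_toSet.image _
  have hΓ : (IU sM).FG := h3 R M sM hsMf
  obtain ⟨T, hT⟩ := hΓ
  have hsqrt : ∀ γ : Mˣ, ∃ d : Ωˣ, (d : Ω) ^ 2 = j γ := by
    intro γ
    obtain ⟨z, hz⟩ := IsAlgClosed.exists_pow_nat_eq (j γ) two_pos
    have hz0 : z ≠ 0 := by
      rintro rfl
      have h1 : j (γ : M) ≠ 0 := (map_ne_zero j).2 γ.ne_zero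
      exact h1 (by rw [← hz]; ring)
    exact ⟨Units.mk0 z hz0, hz⟩
  choose δ hδ using hsqrt
  set gR : R →+* Ω := j.comp (algebraMap R M) with hgR
  have hgRinj : Function.Injective gR := hj.comp (IsFractionRing.injective R M)
  set S : Set Ω := (gR '' (s : Set R) ∪ {(gR h)⁻¹}) ∪
    ((fun γ => ((δ γ : Ωˣ) : Ω)) '' (T : Set Mˣ) ∪
      (fun γ => (((δ γ)⁻¹ : Ωˣ) : Ω)) '' (T : Set Mˣ)) with hS
  have hSf : S.Finite := ((s.finite_toSet.image _).union (Set.finite_singleton _)).union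
    ((T.finite_toSet.image _).union (T.finite_toSet.image _))
  obtain ⟨ι, _, Q, _, hczQ, _, _, _, hQj, halg⟩ := setup (R := R) (M := M) j s hs
  have hint : ∀ x ∈ S, IsIntegral Q x := by
    rintro x ((⟨r, _, rfl⟩ | rfl) | (⟨γ, _, rfl⟩ | ⟨γ, _, rfl⟩))
    · exact (halg _).isIntegral
    · have h1 : (gR h)⁻¹ = j (algebraMap R M h)⁻¹ := by rw [map_inv₀]; rfl
      rw [h1]
      exact (halg _).isIntegral
    · refine IsIntegral.of_pow two_pos ?_
      rw [hδ]
      exact (halg _).isIntegral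
    · refine IsIntegral.of_pow two_pos ?_
      have h1 : (((δ γ)⁻¹ : Ωˣ) : Ω) ^ 2 = j ((γ⁻¹ : Mˣ) : M) := by
        rw [Units.val_inv_eq_inv_val, inv_pow, hδ, Units.val_inv_eq_inv_val, map_inv₀]
      rw [h1]
      exact (halg _).isIntegral
  obtain ⟨E, hfd, hgal, hSE⟩ := exists_galois S hSf hint
  let _ : Algebra (MvPolynomial ι ℚ) E :=
    ((algebraMap Q E).comp (algebraMap (MvPolynomial ι ℚ) Q)).toAlgebra
  have _ : IsScalarTower (MvPolynomial ι ℚ) Q E := IsScalarTower.of_algebraMap_eq' rfl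
  have hWf : {x : E | (x : Ω) ∈ S}.Finite :=
    hSf.preimage (Subtype.val_injective.injOn)
  obtain ⟨a, _, F', _, _, hfdF, hgalF, ψ, B, hR, hB, Φ, hWB, hΦR, hΦσ⟩ :=
    spec_mv (K := ℚ) Pool.Agent.H391R2.T4.hilb_rat (ι := ι) (Q := Q) (E := E) hWf.toFinset (1 : MvPolynomial ι ℚ) one_ne_zero
  have hczF : CharZero F' := charZero_of_injective_algebraMap (algebraMap ℚ F').injective
  have uniq : ∀ b b' : B, ((b : E) : Ω) = ((b' : E) : Ω) → b = b' := fun b b' hb =>
    Subtype.ext (Subtype.ext hb)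
  have inS : ∀ x ∈ S, ∃ b : B, ((b : E) : Ω) = x := by
    intro x hx
    refine ⟨⟨⟨x, hSE hx⟩, hWB ?_⟩, rfl⟩
    simpa using hx
  -- the ring `R` is contained in `B`
  have inR : ∀ r : R, ∃ b : B, ((b : E) : Ω) = gR r := by
    intro r
    have hr : r ∈ Algebra.adjoin ℤ (s : Set R) := by rw [hs]; trivial
    induction hr using Algebra.adjoin_induction with
    | mem x hx => exact inS _ (Or.inl (Or.inl ⟨x, hx, rfl⟩))
    | algebraMap n => exact ⟨(n : B), by simp⟩
    | add x y _ _ h1 h2 =>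
      obtain ⟨b1, h1⟩ := h1
      obtain ⟨b2, h2⟩ := h2
      exact ⟨b1 + b2, by rw [map_add, ← h1, ← h2]; rfl⟩
    | mul x y _ _ h1 h2 =>
      obtain ⟨b1, h1⟩ := h1
      obtain ⟨b2, h2⟩ := h2
      exact ⟨b1 * b2, by rw [map_mul, ← h1, ← h2]; rfl⟩
  choose β hβ using inR
  let φ : R →+* F' :=
    { toFun := fun r => Φ (β r)
      map_one' := by
        rw [uniq (β 1) 1 (by rw [hβ, map_one]; rfl), map_one]
      map_mul' := fun x y => by
        rw [uniq (β (x * y)) (β x * β y) (by rw [hβ, map_mul, ← hβ, ← hβ]; rfl), map_mul]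
      map_zero' := by
        rw [uniq (β 0) 0 (by rw [hβ, map_zero]; rfl), map_zero]
      map_add' := fun x y => by
        rw [uniq (β (x + y)) (β x + β y) (by rw [hβ, map_add, ← hβ, ← hβ]; rfl), map_add] }
  -- square roots
  have hP : ∀ u ∈ IU sM, ∃ d : Ωˣ, (d : Ω) ^ 2 = j u ∧ (∃ b : B, ((b : E) : Ω) = d) ∧
      ∃ b : B, ((b : E) : Ω) = ((d⁻¹ : Ωˣ) : Ω) := by
    intro u hu
    rw [← hT] at hu
    induction hu using Subgroup.closure_induction with
    | mem x hx =>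
      exact ⟨δ x, hδ x, inS _ (Or.inr (Or.inl ⟨x, hx, rfl⟩)), inS _ (Or.inr (Or.inr ⟨x, hx, rfl⟩))⟩
    | one => exact ⟨1, by simp, ⟨1, rfl⟩, ⟨1, by rw [inv_one]; rfl⟩⟩
    | mul x y _ _ h1 h2 =>
      obtain ⟨d1, h1, ⟨b1, hb1⟩, ⟨b1', hb1'⟩⟩ := h1
      obtain ⟨d2, h2, ⟨b2, hb2⟩, ⟨b2', hb2'⟩⟩ := h2
      refine ⟨d1 * d2, ?_, ⟨b1 * b2, ?_⟩, ⟨b1' * b2', ?_⟩⟩
      · rw [Units.val_mul, mul_pow, h1, h2, Units.val_mul, map_mul]
      · rw [Units.val_mul, ← hb1, ← hb2]; rfl
      · rw [mul_inv, Units.val_mul, ← hb1', ← hb2']; rfl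
    | inv x _ h1 =>
      obtain ⟨d1, h1, hb1, hb1'⟩ := h1
      refine ⟨d1⁻¹, ?_, hb1', by rwa [inv_inv]⟩
      rw [Units.val_inv_eq_inv_val, inv_pow, h1, Units.val_inv_eq_inv_val, map_inv₀]
  have inΓ : ∀ u ∈ IU sM, ∃ b : B, ((b : E) : Ω) = j u := by
    intro u hu
    obtain ⟨d, hd, ⟨b, hb⟩, _⟩ := hP u hu
    refine ⟨b ^ 2, ?_⟩
    rw [← hd, ← hb]
    rfl
  -- the kernel
  let N : Subgroup Mˣ :=
    { carrier := {u | u ∈ IU sM ∧ ∃ b : B, ((b : E) : Ω) = j u ∧ Φ b = 1}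
      mul_mem' := by
        rintro x y ⟨h1, b1, h2, h4⟩ ⟨h5, b2, h6, h7⟩
        refine ⟨mul_mem h1 h5, b1 * b2, ?_, by rw [map_mul, h4, h7, one_mul]⟩
        rw [Units.val_mul, map_mul, ← h2, ← h6]; rfl
      one_mem' := ⟨one_mem _, 1, by simp, map_one _⟩
      inv_mem' := by
        rintro x ⟨h1, b1, h2, h4⟩
        have h5 := (IU sM).inv_mem h1
        obtain ⟨b2, hb2⟩ := inΓ _ h5
        refine ⟨h5, b2, hb2, ?_⟩
        have h6 : b1 * b2 = 1 := by
          apply uniq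
          have h7 : (((b1 * b2 : B) : E) : Ω) = ((b1 : E) : Ω) * ((b2 : E) : Ω) := rfl
          rw [h7, h2, hb2, ← map_mul, ← Units.val_mul, mul_inv_cancel, Units.val_one, map_one]
          rfl
        have h7 := congrArg Φ h6
        rwa [map_mul, h4, one_mul, map_one] at h7 }
  have hNΓ : N ≤ IU sM := fun u hu => hu.1
  -- the field of `M` in `E`
  let N' : IntermediateField Q E :=
    (Subfield.comap (algebraMap E Ω) j.fieldRange).toIntermediateField (fun q => by
      obtain ⟨m, hm⟩ := hQj q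
      exact ⟨m, hm⟩)
  have hsqN : ∀ u ∈ N, ∃ v ∈ N, v ^ 2 = u := by
    rintro u ⟨hu, b, hb, hΦb⟩
    obtain ⟨d, hd, ⟨bd, hbd⟩, _⟩ := hP u hu
    have h1 : bd ^ 2 = b := by
      apply uniq
      rw [hb, ← hd, ← hbd]
      rfl
    have h2 : Φ bd = 1 ∨ Φ bd = -1 := by
      have h4 : Φ bd * Φ bd = 1 := by rw [← pow_two, ← map_pow, h1, hΦb]
      exact mul_self_eq_one_iff.1 h4
    obtain ⟨be, hbe, hΦbe⟩ : ∃ be : B, be ^ 2 = b ∧ Φ be = 1 := by
      rcases h2 with h2 | h2
      · exact ⟨bd, h1, h2⟩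
      · exact ⟨-bd, by rw [neg_sq, h1], by rw [map_neg, h2, neg_neg]⟩
    have hbN' : (b : E) ∈ N' := ⟨(u : M), hb.symm⟩
    have hfix : (be : E) ∈ N' := by
      rw [← IsGalois.fixedField_fixingSubgroup N', IntermediateField.mem_fixedField_iff]
      intro σ hσ
      have h4 : σ (b : E) = b := (IntermediateField.mem_fixingSubgroup_iff N' σ).1 hσ _ hbN'
      have h5 : (σ (be : E)) ^ 2 = (be : E) ^ 2 := by
        have h6 : ((be : E)) ^ 2 = (b : E) := by rw [← hbe]; rfl
        rw [← map_pow, h6, h4]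
      rcases sq_eq_sq_iff_eq_or_eq_neg.1 h5 with h6 | h6
      · exact h6
      · exfalso
        have h7 : Φ ⟨σ (be : E), hB σ be⟩ = 1 := by rw [hΦσ, hΦbe, map_one]
        have h8 : (⟨σ (be : E), hB σ be⟩ : B) = -be := Subtype.ext h6
        rw [h8, map_neg, hΦbe] at h7
        norm_num at h7
    obtain ⟨v, hv⟩ := hfix
    have hv' : j v = ((be : E) : Ω) := hv
    have hv2 : v ^ 2 = (u : M) := by
      apply hj
      rw [map_pow, hv', ← hb, ← hbe]
      rfl
    have hv0 : v ≠ 0 := by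
      rintro rfl
      exact u.ne_zero (by rw [← hv2]; ring)
    have hvu : (Units.mk0 v hv0) ^ 2 = u := Units.ext (by
      rw [Units.val_pow_eq_pow_val, Units.val_mk0, hv2])
    refine ⟨Units.mk0 v hv0, ⟨⟨?_, ?_⟩, be, hv'.symm, hΦbe⟩, hvu⟩
    · refine IsIntegral.of_pow two_pos ?_
      rw [← Units.val_pow_eq_pow_val, hvu]
      exact hu.1
    · refine IsIntegral.of_pow two_pos ?_
      rw [← Units.val_pow_eq_pow_val, inv_pow, hvu]
      exact hu.2
  have hpN : ∀ w ∈ N, ∀ p : ℕ, 0 < p → ∑ i ∈ Finset.range p, (w : M) ^ i ≠ 0 := by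
    rintro w ⟨_, b, hb, hΦb⟩ p hp h0
    have h1 : ∑ i ∈ Finset.range p, b ^ i = 0 := by
      apply uniq
      have h2 : (((∑ i ∈ Finset.range p, b ^ i : B) : E) : Ω) =
          ∑ i ∈ Finset.range p, ((b : E) : Ω) ^ i := by
        have h4 := map_sum ((algebraMap E Ω).comp B.subtype) (fun i => b ^ i) (Finset.range p)
        simp only [map_pow] at h4
        exact h4
      rw [h2, hb]
      have h4 : ∑ i ∈ Finset.range p, (j (w : M)) ^ i = j (∑ i ∈ Finset.range p, (w : M) ^ i) := by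
        rw [map_sum]
        simp only [map_pow]
      rw [h4, h0, map_zero]
      rfl
    have h2 := congrArg Φ h1
    rw [map_sum, map_zero] at h2
    simp only [map_pow, hΦb, one_pow, Finset.sum_const, Finset.card_range, nsmul_eq_mul,
      mul_one, Nat.cast_eq_zero] at h2
    omega
  have hNtriv := trivial_of_squares (IU sM) N ⟨T, hT⟩ hNΓ hsqN hpN
  have hNF : NumberField F' := by
    refine @NumberField.mk F' _ hczF ?_
    have h1 : (DivisionRing.toRatAlgebra : Algebra ℚ F') = ‹Algebra ℚ F'› := Subsingleton.elim _ _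
    rw [h1]
    exact hfdF
  refine ⟨F', inferInstance, hNF, φ, ?_, ?_⟩
  · -- `φ h ≠ 0`
    obtain ⟨b, hb⟩ := inS ((gR h)⁻¹) (Or.inl (Or.inr rfl))
    have h4 : gR h ≠ 0 := (map_ne_zero_iff gR hgRinj).2 hh
    have h2 : (((β h * b : B) : E) : Ω) = ((β h : E) : Ω) * ((b : E) : Ω) := rfl
    have h5 : ((β h : E) : Ω) * ((b : E) : Ω) = 1 := by
      rw [hβ, hb, mul_inv_cancel₀ h4]
    have h6 : (((1 : B) : E) : Ω) = 1 := rfl
    have h1 : β h * b = 1 := uniq _ _ (by rw [h2, h5, h6])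
    have h7 := congrArg Φ h1
    rw [map_mul, map_one] at h7
    exact left_ne_zero_of_mul_eq_one h7
  · intro u hu
    have hmem : Units.map (algebraMap R M : R →* M) u ∈ IU sM := by
      refine ⟨?_, ?_⟩
      · exact isIntegral_algebraMap (R := Algebra.adjoin ℤ sM) (A := M)
          (x := ⟨algebraMap R M u, mem_adjoinZ hs _⟩)
      · rw [← map_inv]
        exact isIntegral_algebraMap (R := Algebra.adjoin ℤ sM) (A := M)
          (x := ⟨algebraMap R M ((u⁻¹ : Rˣ) : R), mem_adjoinZ hs _⟩)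
    have h1 := hNtriv (Units.map (algebraMap R M : R →* M) u) ⟨hmem, β u, hβ u, hu⟩
    have h2 : algebraMap R M (u : R) = algebraMap R M 1 := by
      have := congrArg (fun x : Mˣ => (x : M)) h1
      simpa using this
    exact Units.ext (IsFractionRing.injective R M h2)

theorem sp (h3 : RQ3) : SP := by
  intro R _ _ _ _ h hh
  exact core h3 (M := FractionRing R) (algebraMap (FractionRing R) (AlgebraicClosure (FractionRing R)))
    h hh

end Pool.Agent.N558.FG
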